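import Mathlib

namespace Pool.Agent.H.MP_981e77_lc

/-- There is a homomorphism between two structures with one ternary relation. -/
def Hom {X B : Type} (R : Set (Fin 3 → X)) (S : Set (Fin 3 → B)) : Prop :=
  ∃ f : X → B, ∀ t ∈ R, f ∘ t ∈ S

/-- Product structure. -/
def prod {A B : Type} (R : Set (Fin 3 → A)) (S : Set (Fin 3 → B)) : Set (Fin 3 → A × B) :=
  {t | Prod.fst ∘ t ∈ R ∧ Prod.snd ∘ t ∈ S}

def oneIn3 : Finset (Fin 3 → Fin 2) := {![1, 0, 0], ![0, 1, 0], ![0, 0, 1]}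

def NAE : Set (Fin 3 → Fin 2) := {t | t ≠ ![0, 0, 0] ∧ t ≠ ![1, 1, 1]}

def E (m : ℕ) : Set (Fin 3 → ZMod m) := {t | t 0 + t 1 + t 2 = 1}

/-- The affine integer programming relaxation for the template 1-in-3 accepts the instance `R`. -/
def AIP {X : Type} (R : Set (Fin 3 → X)) : Prop :=
  ∃ (lam : X → Fin 2 → ℤ) (mu : (Fin 3 → X) → (Fin 3 → Fin 2) → ℤ),
    (∀ x, ∑ a, lam x a = 1) ∧ ∀ t ∈ R, ∑ s ∈ oneIn3, mu t s = 1 ∧
      ∀ i a, lam (t i) a = ∑ s ∈ oneIn3 with s i = a, mu t s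

end Pool.Agent.H.MP_981e77_lc
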