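import Mathlib
import Pool.Agent.H.MP_981e77_lc.Defs

namespace Pool.Agent.H.MP_981e77_lc

theorem dec (e : ℤ) : ∃ kw : ℕ × ℤ, (e = 0 → kw.2 = 0) ∧ (e ≠ 0 → e = 3 ^ kw.1 * kw.2 ∧ ¬ 3 ∣ kw.2) := by
  by_cases h : e = 0
  · exact ⟨(0, 0), fun _ => rfl, fun h' => absurd h h'⟩
  · have hf : FiniteMultiplicity (3 : ℤ) e := Int.finiteMultiplicity_iff.2 ⟨by norm_num, h⟩
    obtain ⟨w, h1, h2⟩ := hf.exists_eq_pow_mul_and_not_dvd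
    exact ⟨(_, w), fun h' => absurd h' h, fun _ => ⟨h1, h2⟩⟩

abbrev Col : Type := ZMod 3 × ZMod 27

noncomputable def cls (e : ℤ) : Col := (((dec e).choose.1 : ZMod 3), ((dec e).choose.2 : ZMod 27))

theorem cls_spec (e : ℤ) : (e = 0 ∧ (cls e).2 = 0) ∨
    ∃ (k : ℕ) (w : ℤ), e = 3 ^ k * w ∧ ¬ 3 ∣ w ∧ cls e = ((k : ZMod 3), (w : ZMod 27)) := by
  by_cases h : e = 0
  · refine Or.inl ⟨h, ?_⟩
    simp only [cls, (dec e).choose_spec.1 h, Int.cast_zero]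
  · exact Or.inr ⟨_, _, ((dec e).choose_spec.2 h).1, ((dec e).choose_spec.2 h).2, rfl⟩

def Rel (a b c : Col) : Prop := ∃ x y z : ℤ, x + y + z = 0 ∧ cls x = a ∧ cls y = b ∧ cls z = c

theorem Rel.swap {a b c : Col} (h : Rel a b c) : Rel a c b := by
  obtain ⟨x, y, z, h, h1, h2, h3⟩ := h
  exact ⟨x, z, y, by omega, h1, h3, h2⟩

theorem red (k l m : ℕ) (u v w : ℤ) (h : 3 ^ k * u + 3 ^ l * v + 3 ^ m * w = 0) :
    ∃ n a b c : ℕ, k = n + a ∧ l = n + b ∧ m = n + c ∧ (a = 0 ∨ b = 0 ∨ c = 0) ∧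
      3 ^ a * u + 3 ^ b * v + 3 ^ c * w = 0 := by
  obtain ⟨a, ha⟩ := Nat.exists_eq_add_of_le (min_le_left k (min l m))
  obtain ⟨b, hb⟩ := Nat.exists_eq_add_of_le ((min_le_right k (min l m)).trans (min_le_left l m))
  obtain ⟨c, hc⟩ := Nat.exists_eq_add_of_le ((min_le_right k (min l m)).trans (min_le_right l m))
  refine ⟨_, a, b, c, ha, hb, hc, by omega, ?_⟩
  generalize min k (min l m) = n at *
  subst ha hb hc
  have : (3 : ℤ) ^ n * (3 ^ a * u + 3 ^ b * v + 3 ^ c * w) = 0 := by rw [← h]; ring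
  exact (mul_eq_zero.1 this).resolve_left (by positivity)

theorem pw (a : ℕ) (u : ℤ) : (a = 0 ∧ 3 ^ a * u = u) ∨ (a = 1 ∧ 3 ^ a * u = 3 * u) ∨
    (a = 2 ∧ 3 ^ a * u = 9 * u) ∨ (3 ≤ a ∧ ∃ x, 3 ^ a * u = 27 * x) := by
  match a with
  | 0 => simp
  | 1 => simp
  | 2 => simp
  | a + 3 => exact Or.inr (Or.inr (Or.inr ⟨by omega, 3 ^ a * u, by ring⟩))

theorem z27 (x : ℤ) : (x : ZMod 27) = 0 ↔ x % 27 = 0 :=
  (ZMod.intCast_zmod_eq_zero_iff_dvd x 27).trans (by push_cast; omega)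

theorem P1 {a b c : Col} (h : Rel a b c) (h1 : 9 * a.2 = 9 * b.2) (h2 : 9 * b.2 = 9 * c.2)
    (h3 : 9 * a.2 ≠ 0) : a.2 + b.2 + c.2 = 0 := by
  obtain ⟨x, y, z, h, rfl, rfl, rfl⟩ := h
  rcases cls_spec x with ⟨-, e⟩ | ⟨k, u, rfl, hu, e1⟩
  · simp [e] at h3
  rcases cls_spec y with ⟨-, e⟩ | ⟨l, v, rfl, hv, e2⟩
  · simp [h1, e] at h3
  rcases cls_spec z with ⟨-, e⟩ | ⟨m, w, rfl, hw, e3⟩
  · simp [h1, h2, e] at h3
  simp only [e1, e2, e3] at h1 h2 ⊢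
  have g1 := (z27 (9 * u - 9 * v)).1 (by push_cast; rw [h1, sub_self])
  have g2 := (z27 (9 * v - 9 * w)).1 (by push_cast; rw [h2, sub_self])
  obtain ⟨n, p, q, r, -, -, -, h0, h⟩ := red _ _ _ _ _ _ h
  have := (z27 (u + v + w)).2 (by
    rcases pw p u with ⟨a1, a2⟩ | ⟨a1, a2⟩ | ⟨a1, a2⟩ | ⟨a1, _, a2⟩ <;>
    rcases pw q v with ⟨b1, b2⟩ | ⟨b1, b2⟩ | ⟨b1, b2⟩ | ⟨b1, _, b2⟩ <;>
    rcases pw r w with ⟨c1, c2⟩ | ⟨c1, c2⟩ | ⟨c1, c2⟩ | ⟨c1, _, c2⟩ <;>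
    rw [a2, b2, c2] at h <;> omega)
  exact_mod_cast this

theorem P2 {a b c : Col} (h : Rel a b c) (h1 : a.1 = b.1) (h2 : 9 * a.2 ≠ 0) (h3 : 9 * b.2 ≠ 0)
    (h4 : 9 * (a.2 + b.2) = 0) (h5 : 3 * (a.2 + b.2) ≠ 0) :
    (c.1 = a.1 + 1 ∧ a.2 + b.2 + 3 * c.2 = 0) ∨ (c.1 = a.1 ∧ (a.2 + c.2 = 0 ∨ b.2 + c.2 = 0)) := by
  obtain ⟨x, y, z, h, rfl, rfl, rfl⟩ := h
  rcases cls_spec x with ⟨-, e⟩ | ⟨k, u, rfl, hu, e1⟩
  · simp [e] at h2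
  rcases cls_spec y with ⟨-, e⟩ | ⟨l, v, rfl, hv, e2⟩
  · simp [e] at h3
  simp only [e1, e2] at h1 h4 h5 ⊢
  have g4 := (z27 (9 * (u + v))).1 (by push_cast; exact h4)
  have g5 := mt (z27 (3 * (u + v))).2 (by push_cast; exact h5)
  have g1 : k % 3 = l % 3 := (ZMod.natCast_eq_natCast_iff' k l 3).1 h1
  rcases cls_spec z with ⟨rfl, -⟩ | ⟨m, w, rfl, hw, e3⟩
  · exfalso
    obtain ⟨n, p, q, r, rfl, rfl, hr, h0, h⟩ := red k l (k + l + 1) u v 0 (by simpa using h)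
    rw [mul_zero, add_zero] at h
    rcases pw p u with ⟨a1, a2⟩ | ⟨a1, a2⟩ | ⟨a1, a2⟩ | ⟨a1, _, a2⟩ <;>
    rcases pw q v with ⟨b1, b2⟩ | ⟨b1, b2⟩ | ⟨b1, b2⟩ | ⟨b1, _, b2⟩ <;>
    rw [a2, b2] at h <;> omega
  simp only [e3]
  obtain ⟨n, p, q, r, rfl, rfl, rfl, h0, h⟩ := red _ _ _ _ _ _ h
  have : ((n + r) % 3 = (n + p + 1) % 3 ∧ (u + v + 3 * w) % 27 = 0) ∨
      ((n + r) % 3 = (n + p) % 3 ∧ ((u + w) % 27 = 0 ∨ (v + w) % 27 = 0)) := by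
    rcases pw p u with ⟨a1, a2⟩ | ⟨a1, a2⟩ | ⟨a1, a2⟩ | ⟨a1, _, a2⟩ <;>
    rcases pw q v with ⟨b1, b2⟩ | ⟨b1, b2⟩ | ⟨b1, b2⟩ | ⟨b1, _, b2⟩ <;>
    rcases pw r w with ⟨c1, c2⟩ | ⟨c1, c2⟩ | ⟨c1, c2⟩ | ⟨c1, _, c2⟩ <;>
    rw [a2, b2, c2] at h <;> omega
  simp only [← z27, ← ZMod.natCast_eq_natCast_iff'] at this
  exact_mod_cast this

def HH (F : ℤ → Bool → Col) (j : ZMod 3) (β : ZMod 27) : Prop :=
  ∀ e s, ¬ 3 ∣ e → (F e s).1 = j ∧ 3 * (F e s).2 = e * β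

theorem un {β : ZMod 27} (h9 : 9 * β = 0) (h3 : 3 * β ≠ 0) (e : ℤ) (he : ¬ 3 ∣ e) :
    3 * (e * β) ≠ 0 := by
  intro h
  apply h3
  obtain ⟨k, rfl | rfl⟩ : ∃ k, e = 3 * k + 1 ∨ e = 3 * k - 1 := ⟨(e + 1) / 3, by omega⟩
  · push_cast at h
    linear_combination h - k * h9
  · push_cast at h
    linear_combination k * h9 - h

theorem next {β : ZMod 27} (h9 : 9 * β = 0) (h3 : 3 * β ≠ 0) {j : ZMod 3} {F G : ℤ → Bool → Col}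
    (hF : HH F j β) (hG : HH G j β) (s t : Bool) (c : Col) (d : ℤ) (hd : ¬ 3 ∣ d)
    (h : ∀ a, Rel (F a s) (G (-a - 3 * d) t) c) :
    c.1 = j + 1 ∧ ∀ a, ¬ 3 ∣ a → (F a s).2 + (G (-a - 3 * d) t).2 + 3 * c.2 = 0 := by
  have key : ∀ a, ¬ 3 ∣ a → (c.1 = j + 1 ∧ (F a s).2 + (G (-a - 3 * d) t).2 + 3 * c.2 = 0) ∨
      (c.1 = j ∧ (3 * c.2 = -a * β ∨ 3 * c.2 = (a + 3 * d) * β)) := by
    intro a ha
    have ha' : ¬ 3 ∣ -a - 3 * d := by omega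
    obtain ⟨f1, f2⟩ := hF a s ha
    obtain ⟨g1, g2⟩ := hG _ t ha'
    have u1 := un h9 h3 _ ha
    have u2 := un h9 h3 _ ha'
    have u3 := un h9 h3 _ hd
    push_cast at g2 u2
    rcases P2 (h a) (f1.trans g1.symm) (fun e => u1 (by linear_combination e - 3 * f2))
      (fun e => u2 (by linear_combination e - 3 * g2))
      (by linear_combination 3 * f2 + 3 * g2 - d * h9)
      (fun e => u3 (by linear_combination f2 + g2 - e)) with e | ⟨e, e' | e'⟩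
    · exact Or.inl (f1 ▸ e)
    · exact Or.inr ⟨f1 ▸ e, Or.inl (by linear_combination 3 * e' - f2)⟩
    · exact Or.inr ⟨f1 ▸ e, Or.inr (by linear_combination 3 * e' - g2)⟩
  have hj : c.1 = j + 1 := by
    rcases key 1 (by decide) with e | ⟨-, e⟩
    · exact e.1
    rcases key 4 (by decide) with e' | ⟨-, e'⟩
    · exact e'.1
    exfalso
    apply h3
    push_cast at e e'
    rcases e with e | e <;> rcases e' with e' | e'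
    · linear_combination e' - e
    · linear_combination (2 + d) * h9 - 3 * (e - e')
    · linear_combination (2 + d) * h9 - 3 * (e' - e)
    · linear_combination e - e'
  refine ⟨hj, fun a ha => ?_⟩
  rcases key a ha with e | ⟨e, -⟩
  · exact e.2
  · rw [hj] at e
    exact absurd (add_eq_left.1 e) (by decide)

end Pool.Agent.H.MP_981e77_lc
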