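import Mathlib
import Pool.Agent.H.MP_981e77_lc.A

namespace Pool.Agent.H.MP_981e77_lc

def Hm (A C : ℤ → Bool → Col) : Prop :=
  ∀ a b c s t u, a + b + c = 0 → ¬ (s = t ∧ t = u) → Rel (A a s) (A b t) (C c u)

theorem lin {R : Type*} [CommRing R] (f : ℤ → R) (β : R) (h : ∀ d, f (d + 1) = f d + β) (d : ℤ) :
    f d = f 0 + d * β := by
  induction d using Int.induction_on with
  | zero => simp
  | succ n ih => rw [h, ih]; push_cast; ring
  | pred n ih =>
    have := h (-n - 1)
    rw [sub_add_cancel, ih] at this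
    push_cast at this ⊢
    linear_combination -this

theorem three (β γ : ZMod 27) : 9 * β = 0 → 3 * β ≠ 0 → 3 * γ = 0 →
    γ = 0 * β ∨ γ = 3 * β ∨ γ = 6 * β := by
  revert β γ
  decide +kernel

theorem step {A C : ℤ → Bool → Col} (H : Hm A C) {j : ZMod 3} {β : ZMod 27} (h9 : 9 * β = 0)
    (h3 : 3 * β ≠ 0) (hA : HH A j β) (hC : HH C j β) :
    ∃ (t : ℤ) (β' : ZMod 27), 9 * β' = 0 ∧ 3 * β' ≠ 0 ∧
      HH (fun d => A (3 * (d + t))) (j + 1) β' ∧ HH (fun d => C (3 * (d - 2 * t))) (j + 1) β' := by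
  have F1 : ∀ a b c s t u, a + b + c = 0 → ¬ (s = t ∧ t = u) → 3 ∣ b - a → ¬ 3 ∣ a →
      (A a s).2 + (A b t).2 + (C c u).2 = 0 := by
    intro a b c s t u h hs ⟨k, hk⟩ ha
    obtain rfl : b = a + 3 * k := by omega
    obtain rfl : c = -2 * a - 3 * k := by omega
    have e1 := (hA a s ha).2
    have e2 := (hA (a + 3 * k) t (by omega)).2
    have e3 := (hC (-2 * a - 3 * k) u (by omega)).2
    push_cast at e2 e3
    exact P1 (H _ _ _ _ _ _ h hs) (by linear_combination 3 * e1 - 3 * e2 - k * h9)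
      (by linear_combination 3 * e2 - 3 * e3 + (a + 2 * k) * h9)
      fun e => un h9 h3 a ha (by linear_combination e - 3 * e1)
  have N1 := fun d (hd : ¬ 3 ∣ d) s => next h9 h3 hA hA (!s) (!s) (C (3 * d) s) d hd
    fun a => H _ _ _ _ _ _ (by ring) (by cases s <;> simp)
  have N2 := fun d (hd : ¬ 3 ∣ d) s => next h9 h3 hA hC (!s) (!s) (A (3 * d) s) d hd
    fun a => (H _ _ _ _ _ _ (by ring) (by cases s <;> simp)).swap
  have sA : ∀ a s, ¬ 3 ∣ a → (A a s).2 = (A a false).2 := fun a s ha => by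
    linear_combination F1 a a (-2 * a) s false true (by ring) (by simp) (by simp) ha -
      F1 a a (-2 * a) false false true (by ring) (by simp) (by simp) ha
  have sC : ∀ c s, ¬ 3 ∣ c → (C c s).2 = (C c false).2 := fun c s hc => by
    linear_combination F1 c (-2 * c) c false true s (by ring) (by simp) (by omega) hc -
      F1 c (-2 * c) c false true false (by ring) (by simp) (by omega) hc
  obtain ⟨β', hβ⟩ : ∃ β', β' = (A 4 false).2 - (A 1 false).2 := ⟨_, rfl⟩
  have b3 : 3 * β' = 3 * β := by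
    have e1 := (hA 4 false (by decide)).2
    have e2 := (hA 1 false (by decide)).2
    push_cast at e1 e2
    linear_combination 3 * hβ + e1 - e2
  have b9 : 9 * β' = 0 := by linear_combination 3 * b3 + h9
  have c1 : (A (-4) false).2 = (A (-7) false).2 + β' := by
    have e1 := (N1 1 (by decide) true).2 1 (by decide)
    have e2 := (N1 1 (by decide) true).2 4 (by decide)
    norm_num at e1 e2
    linear_combination e1 - e2 - hβ
  have SA : ∀ d : ℤ, (A (-1 + 3 * (d + 1)) false).2 = (A (-1 + 3 * d) false).2 + β' := fun d => by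
    linear_combination F1 (-1 + 3 * (d + 1)) (-7) (5 - 3 * d) false false true (by ring) (by simp)
      (by omega) (by omega) - F1 (-1 + 3 * d) (-4) (5 - 3 * d) false false true (by ring) (by simp)
      (by omega) (by omega) + c1
  have SC : ∀ d : ℤ, (C (-1 + 3 * (d + 1)) false).2 = (C (-1 + 3 * d) false).2 + β' := fun d => by
    linear_combination F1 (-1 + 3 * -d) (-1) (-1 + 3 * (d + 1)) false true false (by ring) (by simp)
      (by omega) (by omega) - F1 (-1 + 3 * (-d + 1)) (-1) (-1 + 3 * d) false true false (by ring)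
      (by simp) (by omega) (by omega) + SA (-d)
  have LA := lin (fun d => (A (-1 + 3 * d) false).2) β' SA
  have LC := lin (fun d => (C (-1 + 3 * d) false).2) β' SC
  simp only [mul_zero, add_zero] at LA LC
  have MC : ∀ d s, ¬ 3 ∣ d → 3 * (C (3 * d) s).2 = d * β' - ((A 1 false).2 + (A (-1) false).2) := by
    intro d s hd
    have e := (N1 d hd s).2 1 (by decide)
    rw [sA 1 _ (by decide), sA (-1 - 3 * d) _ (by omega), show -1 - 3 * d = -1 + 3 * -d by ring, LA] at e
    push_cast at e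
    linear_combination e
  have MA : ∀ d s, ¬ 3 ∣ d → 3 * (A (3 * d) s).2 = d * β' - ((A 1 false).2 + (C (-1) false).2) := by
    intro d s hd
    have e := (N2 d hd s).2 1 (by decide)
    rw [sA _ _ (by decide), sC _ _ (by omega), show -1 - 3 * d = -1 + 3 * -d by ring, LC] at e
    push_cast at e
    linear_combination e
  have e1 := (hA 1 false (by decide)).2
  have e2 := (hA (-1) false (by decide)).2
  have e3 := (hC (-1) false (by decide)).2
  push_cast at e1 e2 e3
  have gA : 3 * ((A 1 false).2 + (C (-1) false).2) = 0 := by linear_combination e1 + e3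
  have gC : 3 * ((A 1 false).2 + (A (-1) false).2) = 0 := by linear_combination e1 + e2
  generalize (A 1 false).2 + (C (-1) false).2 = γ at *
  generalize (A 1 false).2 + (A (-1) false).2 = η at *
  have m1 := MA 1 false (by decide)
  have m2 := MC (-2) true (by decide)
  push_cast at m1 m2
  have q := P1 (H (3 * 1) (3 * 1) (3 * -2) false false true (by ring) (by simp)) rfl
    (by push_cast; linear_combination 3 * m1 - 3 * m2 + b9 - gA + gC)
    fun e => h3 (by push_cast at e; linear_combination e - 3 * m1 + gA - b3)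
  push_cast at q
  have q' : 2 * γ + η = 0 := by linear_combination 2 * m1 + m2 - 3 * q
  obtain ⟨t, ht, ht'⟩ : ∃ t : ℤ, 3 ∣ t ∧ γ = t * β' := by
    rcases three β' γ b9 (b3 ▸ h3) gA with e | e | e
    · exact ⟨0, by decide, by exact_mod_cast e⟩
    · exact ⟨3, by decide, by exact_mod_cast e⟩
    · exact ⟨6, by decide, by exact_mod_cast e⟩
  refine ⟨t, β', b9, b3 ▸ h3, fun d s hd => ⟨(N2 _ (by omega) s).1, ?_⟩,
    fun d s hd => ⟨(N1 _ (by omega) s).1, ?_⟩⟩
  · have := MA (d + t) s (by omega)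
    push_cast at this
    linear_combination this - ht'
  · have := MC (d - 2 * t) s (by omega)
    push_cast at this
    linear_combination this + 2 * ht' - q'

theorem descent (n : ℕ) : ∀ {A C : ℤ → Bool → Col} {j : ZMod 3} {β : ZMod 27}, Hm A C → 9 * β = 0 →
    3 * β ≠ 0 → HH A j β → HH C j β → (∀ e, A (e + 3 ^ n) = A e) → False := by
  induction n with
  | zero =>
    intro A C j β _ _ h3 hA _ hp
    have e1 := (hA 1 false (by decide)).2
    have e2 := (hA (1 + 3 ^ 0) false (by decide)).2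
    rw [hp] at e2
    push_cast at e1 e2
    exact h3 (by linear_combination 3 * e1 - 3 * e2)
  | succ n ih =>
    intro A C j β H h9 h3 hA hC hp
    obtain ⟨t, β', b9, b3, hA', hC'⟩ := step H h9 h3 hA hC
    refine ih (fun a b c s u v h hs => H _ _ _ _ _ _ (by omega) hs) b9 b3 hA' hC' fun e => ?_
    exact (congrArg A (by ring)).trans (hp (3 * (e + t)))

noncomputable def hh (x : ℤ) : ZMod 27 × Col := ((x : ZMod 27), cls (x / 3))

def S : Set (Fin 3 → ZMod 27 × Col) :=
  {t | ∃ x y z : ℤ, x + y + z = 1 ∧ hh x = t 0 ∧ hh y = t 1 ∧ hh z = t 2}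

theorem aip_hom {X : Type} (R : Set (Fin 3 → X)) (h : AIP R) : Hom R S := by
  obtain ⟨lam, mu, -, h⟩ := h
  refine ⟨fun x => hh (lam x 1), fun t ht => ⟨lam (t 0) 1, lam (t 1) 1, lam (t 2) 1, ?_, rfl, rfl,
    rfl⟩⟩
  obtain ⟨h1, h2⟩ := h t ht
  have f0 : oneIn3.filter (fun s => s 0 = 1) = {![1, 0, 0]} := by decide
  have f1 : oneIn3.filter (fun s => s 1 = 1) = {![0, 1, 0]} := by decide
  have f2 : oneIn3.filter (fun s => s 2 = 1) = {![0, 0, 1]} := by decide
  rw [h2, h2, h2, f0, f1, f2, ← h1, oneIn3, Finset.sum_insert (by decide),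
    Finset.sum_insert (by decide)]
  simp [add_assoc]

theorem base_hom : Hom (oneIn3 : Set (Fin 3 → Fin 2)) S := by
  refine ⟨fun a => hh (a.1 : ℤ), fun t ht => ⟨(t 0).1, (t 1).1, (t 2).1, ?_, rfl, rfl, rfl⟩⟩
  revert t
  simp only [Finset.mem_coe]
  decide

theorem solve (μ : ZMod 27) : ∃ a : ZMod 27, μ + a * (1 - 3 * μ) = 0 := by
  revert μ
  decide +kernel

theorem un' (μ : ZMod 27) : 3 * (3 * (1 - 3 * μ)) ≠ 0 := by
  revert μ
  decide +kernel

theorem top (x e r : ℤ) (hr : r = 0 ∨ r = 1) (l : ZMod 27) (hl : 3 * (3 * l) ≠ 0) (he : ¬ 3 ∣ e)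
    (h : (x : ZMod 27) = r + e * (3 * l)) :
    (cls (x / 3)).1 = 0 ∧ 3 * (cls (x / 3)).2 = e * (3 * l) := by
  have h27 : (27 : ZMod 27) = 0 := rfl
  have g := (z27 (9 * (x - r))).1 (by push_cast; linear_combination 9 * h + e * l * h27)
  have hx : x = 3 * (x / 3) + r := by omega
  have g' : ((3 * (x / 3) : ℤ) : ZMod 27) = e * (3 * l) := by
    rw [hx] at h
    push_cast at h ⊢
    linear_combination h
  have u := un (β := 3 * l) (by linear_combination l * h27) hl e he
  rw [← g'] at u
  generalize x / 3 = y at *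
  have u' := mt (z27 (3 * (3 * y))).2 (by exact_mod_cast u)
  rcases cls_spec y with ⟨rfl, -⟩ | ⟨k, w, hy, hw, e1⟩
  · simp at u'
  · rcases pw k w with ⟨a1, a2⟩ | ⟨a1, a2⟩ | ⟨a1, a2⟩ | ⟨a1, _, a2⟩ <;> rw [a2] at hy
    · rw [e1, ← g', a1, hy]
      simp
    all_goals omega

theorem no_hom (p : ℕ) : ¬ Hom (prod (E (3 ^ p)) NAE) S := by
  rintro ⟨g, hg⟩
  let G : ℤ → Bool → ZMod 27 × Col := fun a s => g (a, if s then 1 else 0)
  have hG : ∀ a b c s t u, a + b + c = 1 → ¬ (s = t ∧ t = u) →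
      ∃ x y z : ℤ, x + y + z = 1 ∧ hh x = G a s ∧ hh y = G b t ∧ hh z = G c u := by
    intro a b c s t u h hs
    refine hg ![(a, if s then 1 else 0), (b, if t then 1 else 0), (c, if u then 1 else 0)] ⟨?_, ?_⟩
    · change ((a : ZMod (3 ^ p)) + b + c = 1)
      exact_mod_cast congrArg (Int.cast : ℤ → ZMod (3 ^ p)) h
    · revert hs
      have : Prod.snd ∘ ![((a : ZMod (3 ^ p)), if s then (1 : Fin 2) else 0),
          (b, if t then 1 else 0), (c, if u then 1 else 0)] =
          ![if s then 1 else 0, if t then 1 else 0, if u then 1 else 0] := by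
        funext i
        fin_cases i <;> rfl
      rw [this, NAE]
      cases s <;> cases t <;> cases u <;> decide
  have h1 : ∀ a b c s t u, a + b + c = 1 → ¬ (s = t ∧ t = u) →
      (G a s).1 + (G b t).1 + (G c u).1 = 1 := by
    intro a b c s t u h hs
    obtain ⟨x, y, z, e, e1, e2, e3⟩ := hG a b c s t u h hs
    rw [← e1, ← e2, ← e3]
    change (x : ZMod 27) + y + z = 1
    exact_mod_cast congrArg (Int.cast : ℤ → ZMod 27) e
  have h2 : ∀ a s, (G a s).1 = (G a false).1 := fun a s => by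
    linear_combination h1 a 0 (1 - a) s false true (by ring) (by simp) -
      h1 a 0 (1 - a) false false true (by ring) (by simp)
  obtain ⟨μ, hμ⟩ : ∃ μ, μ = (G 0 false).1 := ⟨_, rfl⟩
  have h3 : ∀ a s, (G a s).1 = μ + a * (1 - 3 * μ) := by
    intro a s
    rw [h2, hμ]
    refine lin (fun a => (G a false).1) _ (fun d => ?_) a
    linear_combination h1 (d + 1) 0 (-d) false false true (by ring) (by simp) -
      h1 d 1 (-d) false false true (by ring) (by simp) + h1 0 1 0 false false true (by ring)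
      (by simp) - h2 0 true
  obtain ⟨a', ha'⟩ := solve μ
  obtain ⟨a₀, rfl⟩ := ZMod.intCast_surjective a'
  have h27 : (27 : ZMod 27) = 0 := rfl
  have hA : ∀ e s, (G (a₀ + 3 * e) s).1 = (0 : ℤ) + e * (3 * (1 - 3 * μ)) := fun e s => by
    rw [h3]; push_cast; linear_combination ha'
  have hC : ∀ e s, (G (1 - 2 * a₀ + 3 * e) s).1 = (1 : ℤ) + e * (3 * (1 - 3 * μ)) := fun e s => by
    rw [h3]; push_cast; linear_combination (-2) * ha'
  have im : ∀ a s, ∃ x, hh x = G a s := fun a s =>
    (hG a 0 (1 - a) s false true (by ring) (by simp)).imp fun _ ⟨_, _, h⟩ => h.2.1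
  refine descent p (A := fun e s => (G (a₀ + 3 * e) s).2)
    (C := fun e s => (G (1 - 2 * a₀ + 3 * e) s).2) (j := 0) (β := 3 * (1 - 3 * μ)) ?_
    (by linear_combination (1 - 3 * μ) * h27) (un' μ) ?_ ?_ ?_
  · intro a b c s t u h hs
    obtain ⟨x, y, z, e, e1, e2, e3⟩ := hG (a₀ + 3 * a) (a₀ + 3 * b) (1 - 2 * a₀ + 3 * c) s t u
      (by omega) hs
    have g1 := (z27 (9 * x)).1 (by
      have : (x : ZMod 27) = _ := (congrArg Prod.fst e1).trans (hA a s)
      push_cast at this ⊢
      linear_combination 9 * this + a * (1 - 3 * μ) * h27)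
    have g2 := (z27 (9 * y)).1 (by
      have : (y : ZMod 27) = _ := (congrArg Prod.fst e2).trans (hA b t)
      push_cast at this ⊢
      linear_combination 9 * this + b * (1 - 3 * μ) * h27)
    exact ⟨x / 3, y / 3, z / 3, by omega, congrArg Prod.snd e1, congrArg Prod.snd e2,
      congrArg Prod.snd e3⟩
  · intro e s he
    obtain ⟨x, hx⟩ := im (a₀ + 3 * e) s
    have := top x e 0 (Or.inl rfl) _ (un' μ) he ((congrArg Prod.fst hx).trans (hA e s))
    simp only [← hx]
    exact this
  · intro e s he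
    obtain ⟨x, hx⟩ := im (1 - 2 * a₀ + 3 * e) s
    have := top x e 1 (Or.inr rfl) _ (un' μ) he ((congrArg Prod.fst hx).trans (hC e s))
    simp only [← hx]
    exact this
  · intro e
    funext s
    have : ((a₀ + 3 * (e + 3 ^ p) : ℤ) : ZMod (3 ^ p)) = (a₀ + 3 * e : ℤ) := by
      have := ZMod.natCast_self (3 ^ p)
      push_cast at this ⊢
      linear_combination 3 * this
    simp only [G, this]

end Pool.Agent.H.MP_981e77_lc
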